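import Mathlib
import Pool.Agent.J6H10.GI.Base

/-! # GI-OSC: the kernel averages oscillate slowly -/

set_option autoImplicit false

open MeasureTheory Set Filter Topology

namespace Pool.Agent.J6H88.GI

open Pool.Agent.J6H10.GI

/-- from the inequality for all parameters to the triangle inequality -/
lemma sqrt_of_lam {A D B : ℝ} (hA : 0 ≤ A) (hD : 0 ≤ D)
    (h : ∀ l : ℝ, 0 < l → B ≤ (1 + l) * A ^ 2 + (1 + 1 / l) * D ^ 2) : Real.sqrt B ≤ A + D := by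
  refine le_of_forall_pos_le_add fun ε hε => ?_
  have hA' : 0 < A + ε / 2 := by positivity
  have hD' : 0 < D + ε / 2 := by positivity
  have h1 := h ((D + ε / 2) / (A + ε / 2)) (by positivity)
  refine Real.sqrt_le_iff.2 ⟨by positivity, h1.trans ?_⟩
  have h2 : (1 + (D + ε / 2) / (A + ε / 2)) * A ^ 2 ≤ (1 + (D + ε / 2) / (A + ε / 2)) * (A + ε / 2) ^ 2 := by
    gcongr
    linarith
  have h3 : (1 + 1 / ((D + ε / 2) / (A + ε / 2))) * D ^ 2 ≤
      (1 + 1 / ((D + ε / 2) / (A + ε / 2))) * (D + ε / 2) ^ 2 := by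
    gcongr
    linarith
  refine (add_le_add h2 h3).trans (le_of_eq ?_)
  field_simp
  ring

lemma sq_lam (x y : ℝ) {l : ℝ} (hl : 0 < l) : y ^ 2 ≤ (1 + l) * x ^ 2 + (1 + 1 / l) * (y - x) ^ 2 := by
  have h : (1 + l) * x ^ 2 + (1 + 1 / l) * (y - x) ^ 2 - y ^ 2 = (l * x - (y - x)) ^ 2 / l := by
    field_simp
    ring
  have h2 : 0 ≤ (l * x - (y - x)) ^ 2 / l := by positivity
  linarith

/-- the numerator of the kernel -/
lemma num_eq (E a : ℝ) : (E - 1) ^ 2 + 4 * E * Real.sin (a / 2) ^ 2 =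
    (E * Real.cos a - 1) ^ 2 + (E * Real.sin a) ^ 2 := by
  have h1 : Real.cos a = 1 - 2 * Real.sin (a / 2) ^ 2 := by
    have h2 := Real.cos_two_mul (a / 2)
    have h3 := Real.sin_sq_add_cos_sq (a / 2)
    rw [show 2 * (a / 2) = a by ring] at h2
    rw [h2]
    linarith
  have h4 := Real.sin_sq_add_cos_sq a
  have h5 : (E * Real.cos a - 1) ^ 2 + (E * Real.sin a) ^ 2 =
      E ^ 2 * (Real.sin a ^ 2 + Real.cos a ^ 2) - 2 * E * Real.cos a + 1 := by ring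
  rw [h5, h4, h1]
  ring

/-- the difference -/
lemma diff_eq (E F a b : ℝ) : (E * F * Real.cos (a + b) - E * Real.cos a) ^ 2 +
    (E * F * Real.sin (a + b) - E * Real.sin a) ^ 2 =
    E ^ 2 * ((F * Real.cos b - 1) ^ 2 + (F * Real.sin b) ^ 2) := by
  rw [Real.cos_add, Real.sin_add]
  have h1 := Real.sin_sq_add_cos_sq a
  have h2 := Real.sin_sq_add_cos_sq b
  have e1 : Real.sin a ^ 2 = 1 - Real.cos a ^ 2 := by linarith
  have e2 : Real.sin b ^ 2 = 1 - Real.cos b ^ 2 := by linarith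
  ring_nf
  rw [show Real.sin a ^ 2 = 1 - Real.cos a ^ 2 from e1, show Real.sin b ^ 2 = 1 - Real.cos b ^ 2 from e2]
  ring

lemma KK_lam {τ τ' σ : ℝ} (hτ : 0 ≤ τ) (hτ1 : τ ≤ 1) (hσ : 0 ≤ σ) (hσ2 : σ ≤ 2) (t : ℝ)
    {l : ℝ} (hl : 0 < l) :
    KK τ' σ t ≤ (1 + l) * KK τ σ t + (1 + 1 / l) * (Real.exp 2 ^ 2 * KK (τ' - τ) σ t) ∧
    KK τ σ t ≤ (1 + l) * KK τ' σ t + (1 + 1 / l) * (Real.exp 2 ^ 2 * KK (τ' - τ) σ t) := by
  unfold KK
  have hnum : ∀ u : ℝ, (Real.exp (u * σ) - 1) ^ 2 + 4 * Real.exp (u * σ) * Real.sin (u * t / 2) ^ 2 =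
      (Real.exp (u * σ) * Real.cos (u * t) - 1) ^ 2 + (Real.exp (u * σ) * Real.sin (u * t)) ^ 2 := fun u =>
    num_eq _ _
  rw [hnum τ, hnum τ', hnum (τ' - τ)]
  set E := Real.exp (τ * σ) with hE
  set F := Real.exp ((τ' - τ) * σ) with hF
  have hEF : Real.exp (τ' * σ) = E * F := by
    rw [hE, hF, ← Real.exp_add]
    congr 1
    ring
  rw [hEF]
  have ht : τ' * t = τ * t + (τ' - τ) * t := by ring
  rw [ht]
  set a := τ * t with ha
  set b := (τ' - τ) * t with hb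
  set X := (F * Real.cos b - 1) ^ 2 + (F * Real.sin b) ^ 2 with hX
  have hX0 : 0 ≤ X := by positivity
  have hd := diff_eq E F a b
  rw [← hX] at hd
  have hE2 : E ^ 2 ≤ Real.exp 2 ^ 2 := by
    refine pow_le_pow_left₀ (Real.exp_pos _).le ?_ 2
    refine Real.exp_le_exp.2 ?_
    nlinarith
  have hl1 : 0 ≤ 1 + 1 / l := by positivity
  have hEX : (1 + 1 / l) * (E ^ 2 * X) ≤ (1 + 1 / l) * (Real.exp 2 ^ 2 * X) := by gcongr
  have hden : 0 ≤ σ ^ 2 + t ^ 2 := by positivity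
  have fin : ∀ P Q : ℝ, P ≤ (1 + l) * Q + (1 + 1 / l) * (E ^ 2 * X) →
      P / (σ ^ 2 + t ^ 2) ≤ (1 + l) * (Q / (σ ^ 2 + t ^ 2)) +
        (1 + 1 / l) * (Real.exp 2 ^ 2 * (X / (σ ^ 2 + t ^ 2))) := by
    intro P Q h
    have h2 : (1 + l) * (Q / (σ ^ 2 + t ^ 2)) + (1 + 1 / l) * (Real.exp 2 ^ 2 * (X / (σ ^ 2 + t ^ 2))) =
        ((1 + l) * Q + (1 + 1 / l) * (Real.exp 2 ^ 2 * X)) / (σ ^ 2 + t ^ 2) := by ring
    rw [h2]
    exact div_le_div_of_nonneg_right (by linarith) hden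
  refine ⟨fin _ _ ?_, fin _ _ ?_⟩
  · have c1 := sq_lam (E * Real.cos a - 1) (E * F * Real.cos (a + b) - 1) hl
    have c2 := sq_lam (E * Real.sin a) (E * F * Real.sin (a + b)) hl
    have e1 : E * F * Real.cos (a + b) - 1 - (E * Real.cos a - 1) =
        E * F * Real.cos (a + b) - E * Real.cos a := by ring
    rw [e1] at c1
    rw [← hd]
    linarith
  · have c1 := sq_lam (E * F * Real.cos (a + b) - 1) (E * Real.cos a - 1) hl
    have c2 := sq_lam (E * F * Real.sin (a + b)) (E * Real.sin a) hl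
    have e1 : (E * Real.cos a - 1 - (E * F * Real.cos (a + b) - 1)) ^ 2 =
        (E * F * Real.cos (a + b) - E * Real.cos a) ^ 2 := by ring
    have e2 : (E * Real.sin a - E * F * Real.sin (a + b)) ^ 2 =
        (E * F * Real.sin (a + b) - E * Real.sin a) ^ 2 := by ring
    rw [e1] at c1
    rw [e2] at c2
    rw [← hd]
    linarith

theorem osc (hPB : S_PB) : S_OSC := by
  intro W C hW δ τ τ' hδ hδ1 hτ hlt hτ'1
  obtain ⟨K, hK, h⟩ := hPB
  obtain ⟨i1, p1, -⟩ := h W C hW δ τ hδ hδ1 hτ (by linarith)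
  obtain ⟨i2, p2, -⟩ := h W C hW δ τ' hδ hδ1 (by linarith) hτ'1
  obtain ⟨i3, p3, -⟩ := h W C hW δ (τ' - τ) hδ hδ1 (by linarith) (by linarith)
  have hD0 : 0 ≤ Real.exp 2 * Real.sqrt (Psi W δ (τ' - τ)) := by positivity
  have hint : ∀ (f g k : ℝ → ℝ) (l : ℝ), IntegrableOn f (Ioi 0) → IntegrableOn g (Ioi 0) →
      IntegrableOn k (Ioi 0) → (∀ t, f t ≤ (1 + l) * g t + (1 + 1 / l) * (Real.exp 2 ^ 2 * k t)) →
      ∫ t in Ioi (0 : ℝ), f t ≤ (1 + l) * (∫ t in Ioi (0 : ℝ), g t) +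
        (1 + 1 / l) * (Real.exp 2 ^ 2 * ∫ t in Ioi (0 : ℝ), k t) := by
    intro f g k l hf hg hk hle
    have h1 : ∫ t in Ioi (0 : ℝ), f t ≤
        ∫ t in Ioi (0 : ℝ), ((1 + l) * g t + (1 + 1 / l) * (Real.exp 2 ^ 2 * k t)) :=
      integral_mono hf ((hg.const_mul _).add ((hk.const_mul _).const_mul _)) hle
    rw [integral_add (hg.const_mul _) ((hk.const_mul _).const_mul _), integral_const_mul, integral_const_mul,
      integral_const_mul] at h1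
    exact h1
  have hσ : (0 : ℝ) ≤ 1 / 2 + δ := by linarith
  have hσ2 : 1 / 2 + δ ≤ 2 := by linarith
  have hpt : ∀ (u v w x l : ℝ), 0 ≤ w → u ≤ (1 + l) * v + (1 + 1 / l) * (Real.exp 2 ^ 2 * x) →
      u * w ≤ (1 + l) * (v * w) + (1 + 1 / l) * (Real.exp 2 ^ 2 * (x * w)) := by
    intro u v w x l hw hu
    have := mul_le_mul_of_nonneg_right hu hw
    calc u * w ≤ _ := this
      _ = _ := by ring
  rw [abs_sub_le_iff]
  constructor
  · have h1 : Real.sqrt (Psi W δ τ') ≤ Real.sqrt (Psi W δ τ) + Real.exp 2 * Real.sqrt (Psi W δ (τ' - τ)) := by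
      refine sqrt_of_lam (Real.sqrt_nonneg _) hD0 fun l hl => ?_
      rw [mul_pow, Real.sq_sqrt p1, Real.sq_sqrt p3]
      exact hint _ _ _ l i2 i1 i3 fun t => hpt _ _ _ _ l (hW.nonneg δ t)
        (KK_lam hτ.le (by linarith) hσ hσ2 t hl).1
    linarith
  · have h1 : Real.sqrt (Psi W δ τ) ≤ Real.sqrt (Psi W δ τ') + Real.exp 2 * Real.sqrt (Psi W δ (τ' - τ)) := by
      refine sqrt_of_lam (Real.sqrt_nonneg _) hD0 fun l hl => ?_
      rw [mul_pow, Real.sq_sqrt p2, Real.sq_sqrt p3]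
      exact hint _ _ _ l i1 i2 i3 fun t => hpt _ _ _ _ l (hW.nonneg δ t)
        (KK_lam hτ.le (by linarith) hσ hσ2 t hl).2
    linarith

end Pool.Agent.J6H88.GI
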