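import Mathlib
import Pool.Agent.J6H10.GI.Base

/-! # GI-SW: from smooth to sharp cutoffs -/

set_option autoImplicit false

open MeasureTheory Set Filter Topology
open scoped ContDiff

namespace Pool.Agent.J6H88.GI

open Pool.Agent.J6H10.GI

lemma bump_zero (f : ContDiffBump (0 : ℝ)) {x : ℝ} (hx : f.rOut ≤ |x|) : f x = 0 :=
  f.zero_of_le_dist (by rwa [Real.dist_eq, sub_zero])

lemma bump_one (f : ContDiffBump (0 : ℝ)) {x : ℝ} (hx : |x| ≤ f.rIn) : f x = 1 :=
  f.one_of_mem_closedBall (by rwa [Metric.mem_closedBall, Real.dist_eq, sub_zero])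

lemma bump_integrable (f : ContDiffBump (0 : ℝ)) {w : ℝ → ℝ} (hw : Continuous w) {T : ℝ} (hT : 0 < T) :
    IntegrableOn (fun t => f (t / T) * w t) (Ioi 0) := by
  have hc : Continuous fun t => f (t / T) * w t := (f.continuous.comp (by fun_prop)).mul hw
  refine (hc.integrable_of_hasCompactSupport ?_).integrableOn
  refine HasCompactSupport.intro (isCompact_Icc (a := -(f.rOut * T)) (b := f.rOut * T)) fun x hx => ?_
  rw [bump_zero f, zero_mul]
  by_contra hcon
  push Not at hcon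
  apply hx
  rw [abs_div, abs_of_pos hT, div_lt_iff₀ hT, abs_lt] at hcon
  exact ⟨hcon.1.le, hcon.2.le⟩

lemma ind_int {w : ℝ → ℝ} {T : ℝ} (hT : 0 < T) :
    ∫ t in Ioi (0 : ℝ), (Ioc (0 : ℝ) T).indicator w t = ∫ t in (0 : ℝ)..T, w t := by
  rw [intervalIntegral.integral_of_le hT.le, setIntegral_indicator measurableSet_Ioc]
  congr 2
  ext x
  simp only [mem_inter_iff, mem_Ioi, mem_Ioc]
  tauto

lemma ind_integrable {w : ℝ → ℝ} (hw : Continuous w) {T : ℝ} :
    IntegrableOn ((Ioc (0 : ℝ) T).indicator w) (Ioi 0) :=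
  (((hw.integrableOn_Icc).mono_set Ioc_subset_Icc_self).integrable_indicator measurableSet_Ioc).integrableOn

lemma bump_le (f : ContDiffBump (0 : ℝ)) (hf : f.rOut ≤ 1) {w : ℝ → ℝ} (hw : Continuous w)
    (hw0 : ∀ t, 0 ≤ w t) {T : ℝ} (hT : 0 < T) :
    ∫ t in Ioi (0 : ℝ), f (t / T) * w t ≤ ∫ t in (0 : ℝ)..T, w t := by
  rw [← ind_int hT]
  refine setIntegral_mono_on (bump_integrable f hw hT) (ind_integrable hw) measurableSet_Ioi fun t ht => ?_
  have ht0 : (0 : ℝ) < t := ht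
  by_cases h : t ≤ T
  · rw [indicator_of_mem (mem_Ioc.2 ⟨ht0, h⟩)]
    have := f.le_one (x := t / T)
    nlinarith [hw0 t]
  · rw [indicator_of_notMem (fun h' => h h'.2), bump_zero f, zero_mul]
    push Not at h
    have h2 : 1 < t / T := by rw [lt_div_iff₀ hT]; linarith
    rw [abs_of_pos (by positivity)]
    linarith

lemma le_bump (f : ContDiffBump (0 : ℝ)) (hf : 1 ≤ f.rIn) {w : ℝ → ℝ} (hw : Continuous w)
    (hw0 : ∀ t, 0 ≤ w t) {T : ℝ} (hT : 0 < T) :
    ∫ t in (0 : ℝ)..T, w t ≤ ∫ t in Ioi (0 : ℝ), f (t / T) * w t := by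
  rw [← ind_int hT]
  refine setIntegral_mono_on (ind_integrable hw) (bump_integrable f hw hT) measurableSet_Ioi fun t ht => ?_
  have ht0 : (0 : ℝ) < t := ht
  by_cases h : t ≤ T
  · rw [indicator_of_mem (mem_Ioc.2 ⟨ht0, h⟩), bump_one f, one_mul]
    have h2 : t / T ≤ 1 := by rw [div_le_one hT]; exact h
    rw [abs_of_pos (by positivity)]
    linarith
  · rw [indicator_of_notMem (fun h' => h h'.2)]
    exact mul_nonneg f.nonneg (hw0 t)

lemma bump_int (f : ContDiffBump (0 : ℝ)) : f.rIn ≤ ∫ x in Ioi (0 : ℝ), f x ∧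
    ∫ x in Ioi (0 : ℝ), f x ≤ f.rOut := by
  have hi : IntegrableOn (fun x => f x) (Ioi 0) := by
    have := bump_integrable f (w := fun _ => 1) continuous_const one_pos
    simpa using this
  have key : ∀ r : ℝ, 0 < r → ∫ x in Ioi (0 : ℝ), (Ioc (0 : ℝ) r).indicator (fun _ => (1 : ℝ)) x = r := by
    intro r hr
    rw [ind_int hr]
    simp
  constructor
  · rw [← key f.rIn f.rIn_pos]
    refine setIntegral_mono_on (ind_integrable continuous_const) hi measurableSet_Ioi fun t ht => ?_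
    have ht0 : (0 : ℝ) < t := ht
    by_cases h : t ≤ f.rIn
    · rw [indicator_of_mem (mem_Ioc.2 ⟨ht0, h⟩), bump_one f]
      rwa [abs_of_pos ht0]
    · rw [indicator_of_notMem (fun h' => h h'.2)]
      exact f.nonneg
  · rw [← key f.rOut f.rOut_pos]
    refine setIntegral_mono_on hi (ind_integrable continuous_const) measurableSet_Ioi fun t ht => ?_
    have ht0 : (0 : ℝ) < t := ht
    by_cases h : t ≤ f.rOut
    · rw [indicator_of_mem (mem_Ioc.2 ⟨ht0, h⟩)]
      exact f.le_one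
    · rw [indicator_of_notMem (fun h' => h h'.2), bump_zero f]
      push Not at h
      rw [abs_of_pos ht0]
      exact h.le

theorem sw : S_SW := by
  intro W C c hW hk
  have hK : ∀ f : ContDiffBump (0 : ℝ), Conv (fun δ T => (∫ t in Ioi (0 : ℝ), f (t / T) * W δ t) / T)
      (c * ∫ x in Ioi (0 : ℝ), f x) := fun f =>
    hk f f.contDiff f.hasCompactSupport fun x => f.neg x
  -- the constant is nonnegative
  have hc : 0 ≤ c := by
    let f : ContDiffBump (0 : ℝ) := ⟨1, 2, one_pos, by norm_num⟩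
    have hf : (1 : ℝ) ≤ ∫ x in Ioi (0 : ℝ), f x := (bump_int f).1
    by_contra hneg
    push Not at hneg
    obtain ⟨η, T₀, hη, h1⟩ := hK f 1 one_pos (-c / 2) (by linarith)
    obtain ⟨η', T₁, hη', h2⟩ := Conv_small one_pos 1
    set T := max (max T₀ T₁) 3 with hT
    have hT0 : T₀ ≤ T := (le_max_left _ _).trans (le_max_left _ _)
    have hT3 : 3 ≤ T := le_max_right _ _
    have hl : 0 < Real.log T := Real.log_pos (by linarith)
    have h3 := h1 (1 / Real.log T) T hT0 (by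
      rw [one_div, inv_mul_cancel₀ hl.ne', sub_self, abs_zero]
      exact hη)
    have h4 : 0 ≤ (∫ t in Ioi (0 : ℝ), f (t / T) * W (1 / Real.log T) t) / T := by
      refine div_nonneg (setIntegral_nonneg measurableSet_Ioi fun t _ => ?_) (by linarith)
      exact mul_nonneg f.nonneg (hW.nonneg _ t)
    have h5 := (abs_le.1 h3).2
    nlinarith
  intro a ha ε hε
  set e := min (1 / 4) (ε / (4 * (c + 1))) with he
  have he0 : 0 < e := by positivity
  have he1 : e ≤ 1 / 4 := min_le_left _ _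
  have he2 : c * e ≤ ε / 4 := by
    have h1 : e ≤ ε / (4 * (c + 1)) := min_le_right _ _
    calc c * e ≤ (c + 1) * (ε / (4 * (c + 1))) := by gcongr; linarith
      _ = ε / 4 := by field_simp
  let f1 : ContDiffBump (0 : ℝ) := ⟨1 - 2 * e, 1 - e, by linarith, by linarith⟩
  let f2 : ContDiffBump (0 : ℝ) := ⟨1, 1 + e, one_pos, by linarith⟩
  have hf1 : 1 - 2 * e ≤ ∫ x in Ioi (0 : ℝ), f1 x := (bump_int f1).1
  have hf2 : ∫ x in Ioi (0 : ℝ), f2 x ≤ 1 + e := (bump_int f2).2
  obtain ⟨η1, T1, hη1, h1⟩ := hK f1 a ha (ε / 2) (by positivity)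
  obtain ⟨η2, T2, hη2, h2⟩ := hK f2 a ha (ε / 2) (by positivity)
  obtain ⟨η3, T3, hη3, h3⟩ := Conv_small ha 1
  refine ⟨min η1 (min η2 η3), max T1 (max T2 T3), by positivity, fun δ T hT hδ => ?_⟩
  have a1 : T1 ≤ T := (le_max_left _ _).trans hT
  have a2 : T2 ≤ T := (le_max_left _ _).trans ((le_max_right _ _).trans hT)
  have a3 : T3 ≤ T := (le_max_right _ _).trans ((le_max_right _ _).trans hT)
  have b1 := lt_of_lt_of_le hδ (min_le_left _ _)
  have b2 := lt_of_lt_of_le hδ ((min_le_right _ _).trans (min_le_left _ _))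
  have b3 := lt_of_lt_of_le hδ ((min_le_right _ _).trans (min_le_right _ _))
  obtain ⟨-, hT3, hδ0, -, hδ1⟩ := h3 δ T a3 b3
  have hT0 : 0 < T := by linarith
  have c1 := (abs_le.1 (h1 δ T a1 b1)).1
  have c2 := (abs_le.1 (h2 δ T a2 b2)).2
  have hcont := hW.cont δ hδ0 hδ1
  have d1 := div_le_div_of_nonneg_right (bump_le f1 (by change 1 - e ≤ 1; linarith) hcont (hW.nonneg δ) hT0) hT0.le
  have d2 := div_le_div_of_nonneg_right (le_bump f2 (le_refl (1 : ℝ)) hcont (hW.nonneg δ) hT0) hT0.le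
  have e1 : c * (1 - 2 * e) ≤ c * ∫ x in Ioi (0 : ℝ), f1 x := mul_le_mul_of_nonneg_left hf1 hc
  have e2 : c * (∫ x in Ioi (0 : ℝ), f2 x) ≤ c * (1 + e) := mul_le_mul_of_nonneg_left hf2 hc
  unfold mom
  rw [abs_le]
  constructor <;> nlinarith

end Pool.Agent.J6H88.GI
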